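import Pool.Agent.H685R2.Hck.Final

/-!
Every graph `F` has a weighted extension `(H, C, K)` such that the list `F`-colouring problem is
reducible in polynomial time to the `(H, C, K)`-colouring problem. So if the list `F`-colouring
problem is NP-complete then so is the `(H, C, K)`-colouring problem.

The extension: for every set `S` of vertices of `F` there are two vertices `a i` that are adjacent
to the vertices in `S`; every `a i` is also adjacent to one more vertex `c i` of degree one. The
vertices `a i` and `c i` form `C`. Exactly one vertex has to be mapped to `a i`, and exactly
`cnt i` vertices to `c i`, where the numbers `cnt i` are different from each other and at least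
`2`. For an instance `(G, L)` of the list colouring problem one adds to `G` vertices `x i`, where
`x i` is adjacent to all `u` for which `L u` is the set of neighbours of `a i` in `F`, and `cnt i`
pendant neighbours of `x i`. Every vertex of `G` now has at least two neighbours among the `x i`,
so only the new pendant vertices can be mapped to the `c i`. Counting shows that `x i` has to be
mapped to `a i`, and this enforces the lists.
-/

namespace Pool.Agent.Results.MP_58e31d_lc.WeightedExtension

open Pool.Agent.H685R2.Poly Pool.Agent.H685R2.Hck

/-- Every graph `F` has a weighted extension `(H, C, K)` such that list `F`-colouring is reducible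
in polynomial time to `(H, C, K)`-colouring; in particular, if the list `F`-colouring problem is
NP-complete then the `(H, C, K)`-colouring problem is NP-complete. -/
theorem result (f : ℕ) (F : LGraph (Fin f)) :
    ∃ (h r : ℕ) (H : LGraph (Fin h)) (C : Fin r ↪ Fin h) (K : Fin r → ℕ),
      IsExtension H C F ∧
      Reduces (listProblem F) (weightedProblem H C K) ∧
      (NPComplete (listProblem F) → NPComplete (weightedProblem H C K)) :=
  ⟨_, _, HH f F, CC f, KK f, isExtension f F, list_reduces F,
    fun h => ⟨weighted_inNP _ _ _, h.2.of_reduces (list_reduces F)⟩⟩

end Pool.Agent.Results.MP_58e31d_lc.WeightedExtension
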